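import Pool.Agent.KS7_53.Gauss.Sums

/-!
The power sum `S(p-3)` modulo `p^2` and the Bernoulli number `B_{p-3}`.
-/

open Finset

namespace KS7_53

section
variable {p : ℕ} [hp : Fact p.Prime]

theorem norm_bern : ∀ k : ℕ, k + 1 < p → padicNorm p (bernoulli k) ≤ 1 := by
  intro k
  induction k using Nat.strong_induction_on with
  | _ k ih =>
    intro hk
    have h1 := sum_bernoulli (k + 1)
    rw [Finset.sum_range_succ] at h1
    have h2 : ((k + 1).choose k : ℚ) * bernoulli k =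
        (if k + 1 = 1 then 1 else 0) - ∑ i ∈ range k, ((k + 1).choose i : ℚ) * bernoulli i := by
      rw [← h1]; ring
    rw [Nat.choose_succ_self_right] at h2
    have h3 : padicNorm p (((k + 1 : ℕ) : ℚ) * bernoulli k) ≤ 1 := by
      rw [h2]
      refine le_trans (padicNorm.sub) (max_le ?_ ?_)
      · split_ifs <;> simp
      · refine padicNorm.sum_le' (fun i hi => ?_) zero_le_one
        rw [padicNorm.mul]
        have hik := Finset.mem_range.1 hi
        calc padicNorm p (((k + 1).choose i : ℕ) : ℚ) * padicNorm p (bernoulli i)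
            ≤ 1 * 1 := mul_le_mul (padicNorm.of_nat _) (ih i hik (by omega))
              (padicNorm.nonneg _) zero_le_one
          _ = 1 := one_mul 1
    rw [padicNorm.mul] at h3
    have h4 : padicNorm p ((k + 1 : ℕ) : ℚ) = 1 := by
      rw [padicNorm.nat_eq_one_iff]
      intro h
      have := Nat.le_of_dvd (by omega) h
      omega
    rwa [h4, one_mul] at h3

theorem norm_S (h7 : 7 ≤ p) :
    padicNorm p ((S p (p - 3) : ℚ) - p * bernoulli (p - 3)) ≤ (p : ℚ) ^ (-(2 : ℕ) : ℤ) := by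
  have h1 := sum_range_pow p (p - 3)
  have h2 : ((S p (p - 3) : ℤ) : ℚ) = ∑ k ∈ range p, (k : ℚ) ^ (p - 3) := by
    rw [range_eq (p := p) (fun k => (k : ℚ) ^ (p - 3)) (by omega), S]
    push_cast
    rw [zero_pow (by omega), zero_add]
  rw [h2, h1, Finset.sum_range_succ]
  have h3 : bernoulli (p - 3) * ((p - 3 + 1).choose (p - 3) : ℚ) * (p : ℚ) ^ (p - 3 + 1 - (p - 3)) /
      (((p - 3 : ℕ) : ℚ) + 1) = p * bernoulli (p - 3) := by
    rw [Nat.choose_succ_self_right, show p - 3 + 1 - (p - 3) = 1 by omega]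
    have : (((p - 3 : ℕ) : ℚ) + 1) ≠ 0 := by positivity
    push_cast
    field_simp
  rw [h3, add_sub_cancel_right]
  refine padicNorm.sum_le' (fun i hi => ?_) (by positivity)
  have hik := Finset.mem_range.1 hi
  rw [padicNorm.div, padicNorm.mul, padicNorm.mul]
  have h4 : padicNorm p (((p - 3 : ℕ) : ℚ) + 1) = 1 := by
    have : (((p - 3 : ℕ) : ℚ) + 1) = ((p - 3 + 1 : ℕ) : ℚ) := by push_cast; ring
    rw [this, padicNorm.nat_eq_one_iff]
    intro h
    have := Nat.le_of_dvd (by omega) h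
    omega
  have h5 : padicNorm p ((p : ℚ) ^ (p - 3 + 1 - i)) ≤ (p : ℚ) ^ (-(2 : ℕ) : ℤ) := by
    have := (padicNorm.dvd_iff_norm_le (p := p) (n := 2) (z := (p : ℤ) ^ (p - 3 + 1 - i))).1
      (by push_cast; exact pow_dvd_pow _ (by omega))
    push_cast at this ⊢
    exact this
  rw [h4, div_one]
  calc padicNorm p (bernoulli i) * padicNorm p (((p - 3 + 1).choose i : ℕ) : ℚ) *
        padicNorm p ((p : ℚ) ^ (p - 3 + 1 - i))
      ≤ (1 * 1) * (p : ℚ) ^ (-(2 : ℕ) : ℤ) := by
        refine mul_le_mul (mul_le_mul (norm_bern i (by omega)) (padicNorm.of_nat _)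
          (padicNorm.nonneg _) zero_le_one) h5 (padicNorm.nonneg _) (by norm_num)
    _ = _ := by ring

theorem den_bern (h7 : 7 ≤ p) : ¬ (p : ℤ) ∣ ((bernoulli (p - 3)).den : ℤ) := by
  intro h
  have h1 : padicNorm p (((bernoulli (p - 3)).den : ℤ) : ℚ) < 1 := (padicNorm.int_lt_one_iff _).2 h
  have h2 : bernoulli (p - 3) * (((bernoulli (p - 3)).den : ℤ) : ℚ) = ((bernoulli (p - 3)).num : ℚ) := by
    exact_mod_cast Rat.mul_den_eq_num (bernoulli (p - 3))
  have h3 : padicNorm p (((bernoulli (p - 3)).num : ℤ) : ℚ) < 1 := by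
    rw [← h2, padicNorm.mul]
    calc padicNorm p (bernoulli (p - 3)) * padicNorm p (((bernoulli (p - 3)).den : ℤ) : ℚ)
        ≤ 1 * padicNorm p (((bernoulli (p - 3)).den : ℤ) : ℚ) :=
          mul_le_mul_of_nonneg_right (norm_bern _ (by omega)) (padicNorm.nonneg _)
      _ < 1 := by rw [one_mul]; exact h1
  have h4 : (p : ℤ) ∣ (bernoulli (p - 3)).num := (padicNorm.int_lt_one_iff _).1 h3
  have h5 := (bernoulli (p - 3)).reduced
  have h6 : p ∣ (bernoulli (p - 3)).num.natAbs := Int.natCast_dvd.1 h4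
  have h7' : p ∣ (bernoulli (p - 3)).den := by exact_mod_cast h
  exact hp.out.one_lt.ne' (Nat.eq_one_of_dvd_coprimes h5 h6 h7')

theorem S_bern (h7 : 7 ≤ p) : (p : ℤ) ^ 2 ∣
    S p (p - 3) * ((bernoulli (p - 3)).den : ℤ) - p * (bernoulli (p - 3)).num := by
  have h2 : bernoulli (p - 3) * (((bernoulli (p - 3)).den : ℤ) : ℚ) = ((bernoulli (p - 3)).num : ℚ) := by
    exact_mod_cast Rat.mul_den_eq_num (bernoulli (p - 3))
  have h3 : ((S p (p - 3) * ((bernoulli (p - 3)).den : ℤ) - p * (bernoulli (p - 3)).num : ℤ) : ℚ) =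
      ((S p (p - 3) : ℚ) - p * bernoulli (p - 3)) * (((bernoulli (p - 3)).den : ℤ) : ℚ) := by
    push_cast
    push_cast at h2
    rw [← h2]; ring
  have h4 := (padicNorm.dvd_iff_norm_le (p := p) (n := 2)
    (z := S p (p - 3) * ((bernoulli (p - 3)).den : ℤ) - p * (bernoulli (p - 3)).num)).2
    (by
      rw [h3, padicNorm.mul]
      calc padicNorm p ((S p (p - 3) : ℚ) - p * bernoulli (p - 3)) *
            padicNorm p (((bernoulli (p - 3)).den : ℤ) : ℚ)
          ≤ (p : ℚ) ^ (-(2 : ℕ) : ℤ) * 1 :=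
            mul_le_mul (norm_S h7) (padicNorm.of_int _) (padicNorm.nonneg _) (by positivity)
        _ = _ := mul_one _)
  exact_mod_cast h4

end

end KS7_53
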