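import Pool.Agent.KS7_53.Gauss.Main

/-!
The congruence for `G_{r(p-1)}(p)` modulo `p^4`, and the case of even `r`.
-/

open Finset

namespace KS7_53

set_option linter.unusedSectionVars false
set_option linter.style.haveILetI false

section
variable {p : ℕ} [hp : Fact p.Prime]

/-- main part of the terms -/
def A (p n j : ℕ) : GaussianInt :=
  if (p - 1) ∣ (j - 1) ∧ 1 ≤ j then
    (n.choose j : GaussianInt) * J ^ j *
      (((p : ℤ) ^ 3 * hh p * (j * ((n : ℤ) - j) * ((n : ℤ) - j - 1)) : ℤ) : GaussianInt)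
  else 0

theorem term_cong (h7 : 7 ≤ p) {r j : ℕ} (hr : 1 ≤ r) (hj : j ∈ range (r * (p - 1) + 1)) :
    (((p : ℤ) ^ 4 : ℤ) : GaussianInt) ∣
      24 * (if Odd j then T p (r * (p - 1)) j else 0) -
        (A p (r * (p - 1)) j +
          if Odd j then (if (p - 1) ∣ (j + 1) then T p (r * (p - 1)) j * 24 else 0) else 0) := by
  have hodd : p % 2 = 1 := by
    rcases hp.out.eq_two_or_odd with h | h <;> omega
  obtain ⟨q, hq⟩ : ∃ q, p - 1 = 2 * q := ⟨(p - 1) / 2, by omega⟩
  have hjn : j ≤ r * (p - 1) := by have := Finset.mem_range.1 hj; omega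
  by_cases hjo : Odd j
  · have hj1 : 1 ≤ j := hjo.pos
    have hjn' : j < r * (p - 1) := by
      rcases hjn.lt_or_eq with h | h
      · exact h
      · exfalso
        have h2 : r * (p - 1) = 2 * (r * q) := by rw [hq]; ring
        have h3 := Nat.odd_iff.1 hjo
        omega
    rw [if_pos hjo, if_pos hjo]
    by_cases c1 : (p - 1) ∣ (j - 1)
    · have c2 : ¬ (p - 1) ∣ (j + 1) := by
        intro h
        have h' : j + 1 = j - 1 + 2 := by omega
        rw [h'] at h
        have := Nat.le_of_dvd (by norm_num) ((Nat.dvd_add_right c1).1 h)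
        omega
      rw [if_neg c2, A, if_pos ⟨c1, hj1⟩, T]
      obtain ⟨k, hk⟩ := prod_one (p := p) h7 c1 hj1 hjn'
      refine ⟨((r * (p - 1)).choose j : GaussianInt) * J ^ j * (k : ℤ), ?_⟩
      have hk' := congrArg (Int.cast : ℤ → GaussianInt) hk
      push_cast at hk' ⊢
      linear_combination (((r * (p - 1)).choose j : GaussianInt) * J ^ j) * hk'
    · by_cases c2 : (p - 1) ∣ (j + 1)
      · rw [if_pos c2, A, if_neg (fun h => c1 h.1)]
        rw [zero_add, mul_comm, sub_self]
        exact dvd_zero _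
      · rw [if_neg c2, A, if_neg (fun h => c1 h.1), T]
        obtain ⟨k, hk⟩ := prod_other (p := p) h7 hjo hjn' c1 c2
        refine ⟨((r * (p - 1)).choose j : GaussianInt) * J ^ j * (k : ℤ), ?_⟩
        have hk' := congrArg (Int.cast : ℤ → GaussianInt) hk
        push_cast at hk' ⊢
        linear_combination (((r * (p - 1)).choose j : GaussianInt) * J ^ j) * hk'
  · rw [if_neg hjo, if_neg hjo, A, if_neg]
    · simp
    · rintro ⟨⟨c, hc⟩, h1⟩
      apply hjo
      rw [Nat.odd_iff]
      have : j = 2 * (q * c) + 1 := by rw [← mul_assoc, ← hq, ← hc]; omega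
      omega

/-- the reflected terms -/
theorem T_refl {n j : ℕ} (hn : n % 4 = 2) (hjn : j ≤ n) (hjo : Odd j) :
    T p n (n - j) = T p n j := by
  have h1 : J ^ (n - j) = J ^ j := by
    have e1 : J ^ (n - j) * J ^ j = -1 := by
      rw [← pow_add, Nat.sub_add_cancel hjn]
      have : n = 2 * (2 * (n / 4) + 1) := by omega
      rw [this, pow_mul, J_sq, pow_succ, pow_mul]; norm_num
    have e2 : J ^ j * J ^ j = -1 := by
      rw [← pow_add, ← two_mul, pow_mul, J_sq, hjo.neg_one_pow]
    exact mul_right_cancel₀ (pow_ne_zero j J_ne) (e1.trans e2.symm)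
  rw [T, T, h1, Nat.choose_symm hjn, Nat.sub_sub_self hjn, mul_comm (S p (n - j))]

/-- identity for binomial coefficients -/
theorem choose_three {N i : ℕ} (hi : i ≤ N) :
    (((N + 3).choose (i + 1) : ℕ) : ℤ) * (((i : ℤ) + 1) * (((N : ℤ) + 3) - (i + 1)) *
      (((N : ℤ) + 3) - (i + 1) - 1)) = ((N : ℤ) + 3) * (N + 2) * (N + 1) * (N.choose i : ℤ) := by
  have h1 : ((N + 3) : ℤ) * ((N + 2).choose i : ℤ) = ((N + 3).choose (i + 1) : ℤ) * (i + 1) := by
    have := Nat.add_one_mul_choose_eq (N + 2) i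
    exact_mod_cast this
  have h2 : ((N + 1).choose i : ℤ) * (N + 2) = ((N + 2).choose i : ℤ) * ((N : ℤ) + 2 - i) := by
    have := Nat.choose_mul_succ_eq (N + 1) i
    have h' : ((N + 1 + 1 - i : ℕ) : ℤ) = (N : ℤ) + 2 - i := by
      rw [Nat.cast_sub (by omega)]; push_cast; ring
    have h3 := congrArg (Nat.cast : ℕ → ℤ) this
    rw [Nat.cast_mul, Nat.cast_mul, h'] at h3
    push_cast at h3 ⊢
    linear_combination h3
  have h3 : (N.choose i : ℤ) * (N + 1) = ((N + 1).choose i : ℤ) * ((N : ℤ) + 1 - i) := by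
    have := Nat.choose_mul_succ_eq N i
    have h' : ((N + 1 - i : ℕ) : ℤ) = (N : ℤ) + 1 - i := by
      rw [Nat.cast_sub (by omega)]; push_cast; ring
    have h3 := congrArg (Nat.cast : ℕ → ℤ) this
    rw [Nat.cast_mul, Nat.cast_mul, h'] at h3
    push_cast at h3 ⊢
    linear_combination h3
  linear_combination (-((N : ℤ) + 2 - i) * ((N : ℤ) + 1 - i)) * h1 -
    ((N : ℤ) + 3) * ((N : ℤ) + 1 - i) * h2 - ((N : ℤ) + 3) * ((N : ℤ) + 2) * h3

/-- sum of the main parts -/
theorem sum_A {N : ℕ} (hN : 3 ≤ N) (hd : (p - 1) ∣ (N + 3)) (h7 : 7 ≤ p) :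
    ∑ j ∈ range (N + 3 + 1), A p (N + 3) j =
      (((p : ℤ) ^ 3 * hh p * (((N : ℤ) + 3) * (N + 2) * (N + 1)) : ℤ) : GaussianInt) * J *
        ∑ i ∈ range (N + 1), if (p - 1) ∣ i then (N.choose i : GaussianInt) * J ^ i else 0 := by
  rw [Finset.sum_range_succ']
  have h0 : A p (N + 3) 0 = 0 := by rw [A, if_neg]; rintro ⟨_, h⟩; omega
  rw [h0, add_zero, Finset.sum_range_succ, Finset.sum_range_succ]
  have h1 : A p (N + 3) (N + 2 + 1) = 0 := by
    rw [A]; split_ifs
    · push_cast; ring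
    · rfl
  have h2 : A p (N + 3) (N + 1 + 1) = 0 := by
    rw [A]; split_ifs
    · push_cast; ring
    · rfl
  rw [h1, h2, add_zero, add_zero, Finset.mul_sum]
  refine Finset.sum_congr rfl fun i hi => ?_
  have hiN : i ≤ N := by have := Finset.mem_range.1 hi; omega
  rw [A]
  by_cases c : (p - 1) ∣ i
  · rw [if_pos ⟨by simpa using c, by omega⟩, if_pos c]
    have := congrArg (Int.cast : ℤ → GaussianInt) (choose_three hiN)
    push_cast at this ⊢
    linear_combination ((p : GaussianInt) ^ 3 * (hh p : GaussianInt) * J ^ (i + 1)) * this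
  · rw [if_neg (fun h => c (by simpa using h.1)), if_neg c, mul_zero]

/-- The Gaussian power sum modulo `p^4`. -/
theorem G_cong (h4 : p % 4 = 3) (h7 : 7 ≤ p) {r N : ℕ} (hr : Odd r)
    (hN : N + 3 = r * (p - 1)) :
    (((p : ℤ) ^ 4 : ℤ) : GaussianInt) ∣ 24 * G p (r * (p - 1)) -
      2 * ((((p : ℤ) ^ 3 * hh p * (((N : ℤ) + 3) * (N + 2) * (N + 1)) : ℤ) : GaussianInt) * J *
        ∑ i ∈ range (N + 1), if (p - 1) ∣ i then (N.choose i : GaussianInt) * J ^ i else 0) := by
  have hn : (r * (p - 1)) % 4 = 2 := by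
    obtain ⟨k, rfl⟩ := hr
    obtain ⟨l, hl⟩ : ∃ l, p = 4 * l + 3 := ⟨p / 4, by omega⟩
    have : (2 * k + 1) * (p - 1) = 4 * ((2 * k + 1) * l + k) + 2 := by
      rw [hl, show 4 * l + 3 - 1 = 4 * l + 2 by omega]; ring
    omega
  have hd : (p - 1) ∣ (N + 3) := hN ▸ Dvd.intro_left _ rfl
  have hN3 : 3 ≤ N := by
    have := Nat.le_of_dvd (by omega) hd
    omega
  rw [← sum_A hN3 hd h7, hN]
  -- the sum over `j = -1`
  set n := r * (p - 1) with hnn
  have hrefl : ∑ j ∈ range (n + 1), (if Odd j then (if (p - 1) ∣ (j + 1) then T p n j * 24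
      else 0) else 0) =
      ∑ j ∈ range (n + 1), (if (p - 1) ∣ (j - 1) ∧ 1 ≤ j then T p n j * 24 else 0) := by
    rw [← Finset.sum_range_reflect]
    refine Finset.sum_congr rfl fun j hj => ?_
    have hjn : j ≤ n := by have := Finset.mem_range.1 hj; omega
    rw [show n + 1 - 1 - j = n - j by omega]
    have hne : n % 2 = 0 := by omega
    have hpe : 2 ∣ p - 1 := by omega
    by_cases c : (p - 1) ∣ (j - 1) ∧ 1 ≤ j
    · have hjo : Odd j := by
        rw [Nat.odd_iff]
        have := hpe.trans c.1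
        omega
      have hno : Odd (n - j) := by
        rw [Nat.odd_iff] at hjo ⊢; omega
      have hd2 : (p - 1) ∣ (n - j + 1) := by
        have h1 : (p - 1) ∣ n := hnn ▸ Dvd.intro_left _ rfl
        have h2 := Nat.dvd_sub h1 c.1
        have h3 : n - (j - 1) = n - j + 1 := by omega
        rwa [h3] at h2
      rw [if_pos hno, if_pos hd2, if_pos c, T_refl hn hjn hjo]
    · rw [if_neg c]
      by_cases hno : Odd (n - j)
      · have hj1 : Odd j := by rw [Nat.odd_iff] at hno ⊢; omega
        have hd2 : ¬ (p - 1) ∣ (n - j + 1) := by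
          intro h
          apply c
          refine ⟨?_, hj1.pos⟩
          have h1 : (p - 1) ∣ n := hnn ▸ Dvd.intro_left _ rfl
          have h2 := Nat.dvd_sub h1 h
          have h3 : n - (n - j + 1) = j - 1 := by omega
          rwa [h3] at h2
        rw [if_pos hno, if_neg hd2]
      · rw [if_neg hno]
  have hA : ∀ j ∈ range (n + 1), (((p : ℤ) ^ 4 : ℤ) : GaussianInt) ∣
      (if (p - 1) ∣ (j - 1) ∧ 1 ≤ j then T p n j * 24 else 0) - A p n j := by
    intro j hj
    have hjn : j ≤ n := by have := Finset.mem_range.1 hj; omega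
    by_cases c : (p - 1) ∣ (j - 1) ∧ 1 ≤ j
    · have hpe : 2 ∣ p - 1 := by omega
      have hjo : Odd j := by
        rw [Nat.odd_iff]
        have := hpe.trans c.1
        omega
      have h := term_cong (p := p) h7 hr.pos (j := j) (by rw [← hnn]; exact hj)
      rw [← hnn, if_pos hjo, if_pos hjo] at h
      have c2 : ¬ (p - 1) ∣ (j + 1) := by
        intro h
        have h' : j + 1 = j - 1 + 2 := by omega
        rw [h'] at h
        have := Nat.le_of_dvd (by norm_num) ((Nat.dvd_add_right c.1).1 h)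
        omega
      rw [if_neg c2, add_zero] at h
      rw [if_pos c, mul_comm]; exact h
    · rw [if_neg c, A, if_neg c, sub_zero]; exact dvd_zero _
  have hsum : 24 * G p n - 2 * ∑ j ∈ range (n + 1), A p n j =
      ∑ j ∈ range (n + 1), (24 * (if Odd j then T p n j else 0) -
        (A p n j + if Odd j then (if (p - 1) ∣ (j + 1) then T p n j * 24 else 0) else 0)) +
      ∑ j ∈ range (n + 1), ((if (p - 1) ∣ (j - 1) ∧ 1 ≤ j then T p n j * 24 else 0) -
        A p n j) := by
    rw [Finset.sum_sub_distrib, Finset.sum_sub_distrib, Finset.sum_add_distrib, hrefl, G_odd hn,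
      Finset.mul_sum]
    ring
  rw [hsum]
  refine dvd_add (Finset.dvd_sum fun j hj => ?_) (Finset.dvd_sum fun j hj => hA j hj)
  exact term_cong (p := p) h7 hr.pos (by rw [← hnn]; exact hj)

end

end KS7_53
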