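import Pool.Agent.KS7_53.Gauss.Cong
import Pool.Agent.KS7_53.Gauss.Bern

/-!
The final congruence, and the case of even `r`.
-/

open Finset

namespace KS7_53

set_option linter.unusedSectionVars false
set_option linter.style.haveILetI false

section
variable {p : ℕ} [hp : Fact p.Prime]

/-- the exceptional factor -/
def eps (p r : ℕ) : ℤ := if (p + 1) ∣ r + 1 then 5 else if (p + 1) ∣ r + 3 then 7 else 8

/-- existence of the field -/
theorem exists_field (h4 : p % 4 = 3) : ∃ I : GaloisField p 2, I ^ 2 = -1 := by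
  haveI : Fintype (GaloisField p 2) := Fintype.ofFinite _
  have hc : Fintype.card (GaloisField p 2) = p ^ 2 := by
    rw [← Nat.card_eq_fintype_card, GaloisField.card p 2 two_ne_zero]
  have h1 : IsSquare (-1 : GaloisField p 2) := by
    rw [FiniteField.isSquare_neg_one_iff, hc]
    have : p ^ 2 % 4 = 1 := by rw [Nat.pow_mod, h4]
    omega
  obtain ⟨I, hI⟩ := h1
  exact ⟨I, by rw [sq, ← hI]⟩

/-- reduction modulo `p` of the Gaussian integers -/
theorem exists_hom {K : Type*} [CommRing K] {I : K} (hI : I ^ 2 = -1) :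
    ∃ φ : GaussianInt →+* K, φ J = I ∧ ∀ x y : ℤ, φ ⟨x, y⟩ = x + y * I := by
  have h : I * I = ((-1 : ℤ) : K) := by rw [← sq, hI]; push_cast; ring
  refine ⟨Zsqrtd.lift ⟨I, h⟩, ?_, ?_⟩
  · simp [J, Zsqrtd.lift]
  · intro x y; simp [Zsqrtd.lift]

theorem n_mod {r : ℕ} (h4 : p % 4 = 3) (hr : Odd r) : (r * (p - 1)) % 4 = 2 := by
  obtain ⟨k, rfl⟩ := hr
  obtain ⟨l, hl⟩ : ∃ l, p = 4 * l + 3 := ⟨p / 4, by omega⟩
  have : (2 * k + 1) * (p - 1) = 4 * ((2 * k + 1) * l + k) + 2 := by
    rw [hl, show 4 * l + 3 - 1 = 4 * l + 2 by omega]; ring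
  omega

theorem odd_main (h4 : p % 4 = 3) (h7 : 7 ≤ p) {r : ℕ} (hr : Odd r) :
    ∃ g : ℤ, (G p (r * (p - 1))).im = (p : ℤ) ^ 3 * g ∧
      (p : ℤ) ∣ 96 * g + hh p * (r * (r + 1) * (r + 2)) * eps p r := by
  have hp0 : (p : ℤ) ≠ 0 := by exact_mod_cast hp.out.ne_zero
  have hprime : Prime (p : ℤ) := Nat.prime_iff_prime_int.1 hp.out
  have hr0 := hr.pos
  have hn6 : 6 ≤ r * (p - 1) := by
    calc 6 = 1 * 6 := rfl
      _ ≤ r * (p - 1) := Nat.mul_le_mul hr0 (by omega)
  obtain ⟨N, hN⟩ : ∃ N, N + 3 = r * (p - 1) := ⟨r * (p - 1) - 3, by omega⟩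
  obtain ⟨W, hW⟩ := G_cong (p := p) h4 h7 hr hN
  set EZ : GaussianInt := ∑ i ∈ range (N + 1),
    if (p - 1) ∣ i then (N.choose i : GaussianInt) * J ^ i else 0 with hEZ
  have hre : (G p (r * (p - 1))).re = 0 := G_re (n_mod h4 hr)
  -- divisibility by `p^3`
  have h24 : (p : ℤ) ^ 3 ∣ 24 * (G p (r * (p - 1))).im := by
    have h1 : (((p : ℤ) ^ 3 : ℤ) : GaussianInt) ∣ ((24 : ℤ) : GaussianInt) * G p (r * (p - 1)) := by
      refine ⟨2 * (((hh p * (((N : ℤ) + 3) * (N + 2) * (N + 1)) : ℤ) : GaussianInt) * J * EZ) +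
        (p : ℤ) * W, ?_⟩
      push_cast at hW ⊢
      linear_combination hW
    have h2 := ((Zsqrtd.intCast_dvd _ _).1 h1).2
    simpa using h2
  have hcop : IsCoprime ((p : ℤ) ^ 3) 24 := by
    apply IsCoprime.pow_left
    rw [Int.isCoprime_iff_gcd_eq_one]
    have : Nat.Coprime p 24 := by
      rw [hp.out.coprime_iff_not_dvd]
      intro h
      have h' : p ∣ 2 ^ 3 * 3 := by norm_num; exact h
      rcases (hp.out.dvd_mul).1 h' with h | h
      · have := Nat.le_of_dvd (by norm_num) (hp.out.dvd_of_dvd_pow h); omega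
      · have := Nat.le_of_dvd (by norm_num) h; omega
    simpa [Int.gcd, Nat.Coprime] using this
  obtain ⟨g, hg⟩ := hcop.dvd_of_dvd_mul_left h24
  refine ⟨g, hg, ?_⟩
  have hGe : G p (r * (p - 1)) = (((p : ℤ) ^ 3 * g : ℤ) : GaussianInt) * J := by
    rw [← hg]
    ext
    · simp [hre, J]
    · simp [J]
  -- cancel `p^3`
  have hcan : 24 * ((g : ℤ) : GaussianInt) * J -
      2 * (((hh p * (((N : ℤ) + 3) * (N + 2) * (N + 1)) : ℤ) : GaussianInt) * J * EZ) =
      ((p : ℤ) : GaussianInt) * W := by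
    have hp3 : (((p : ℤ) ^ 3 : ℤ) : GaussianInt) ≠ 0 := by
      exact_mod_cast pow_ne_zero 3 hp0
    apply mul_left_cancel₀ hp3
    rw [hGe] at hW
    push_cast at hW ⊢
    linear_combination hW
  -- reduce modulo `p`
  obtain ⟨I, hI⟩ := exists_field h4
  haveI : Fintype (GaloisField p 2) := Fintype.ofFinite _
  have hc : Fintype.card (GaloisField p 2) = p ^ 2 := by
    rw [← Nat.card_eq_fintype_card, GaloisField.card p 2 two_ne_zero]
  obtain ⟨φ, hφJ, hφ⟩ := exists_hom hI
  haveI : CharP (GaloisField p 2) p :=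
    charP_of_injective_algebraMap (algebraMap (ZMod p) (GaloisField p 2)).injective p
  have hpK : ((p : ℕ) : GaloisField p 2) = 0 := CharP.cast_eq_zero _ p
  have hE : φ EZ = E I p N := by
    rw [hEZ, map_sum, E]
    refine Finset.sum_congr rfl fun i _ => ?_
    split_ifs
    · rw [map_mul, map_pow, map_natCast, hφJ]
    · rw [map_zero]
  have h1 := congrArg φ hcan
  simp only [map_sub, map_mul, map_intCast, hφJ, hE, map_ofNat] at h1
  have hI0 : I ≠ 0 := by
    intro h; rw [h] at hI; norm_num at hI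
  have h2 : 24 * (g : GaloisField p 2) =
      2 * (((hh p * (((N : ℤ) + 3) * (N + 2) * (N + 1)) : ℤ) : GaloisField p 2) * E I p N) := by
    apply mul_right_cancel₀ hI0
    have : ((p : ℤ) : GaloisField p 2) = 0 := by exact_mod_cast hpK
    rw [this, zero_mul] at h1
    linear_combination h1
  have hev := E_eval hc hI h4 hr h7 hN
  have hNr : (N : GaloisField p 2) + 3 = - r := by
    have h3 := congrArg (Nat.cast : ℕ → GaloisField p 2) hN
    push_cast [Nat.cast_sub (show 1 ≤ p by omega)] at h3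
    rw [hpK] at h3
    linear_combination h3
  have hcast : (((96 * g + hh p * (r * (r + 1) * (r + 2)) * eps p r : ℤ)) : GaloisField p 2) = 0 := by
    have heps : ((eps p r : ℤ) : GaloisField p 2) = 8 * E I p N := by
      rw [hev, eps]
      by_cases c1 : (p + 1) ∣ r + 1
      · have c3 : ¬ (p + 1) ∣ r + 3 := by
          intro h
          have h' : r + 3 = r + 1 + 2 := by ring
          rw [h'] at h
          have := Nat.le_of_dvd (by norm_num) ((Nat.dvd_add_right c1).1 h)
          omega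
        simp only [c1, c3, if_true, if_false]; norm_num
      · by_cases c3 : (p + 1) ∣ r + 3
        · simp only [c1, c3, if_true, if_false]; norm_num
        · simp only [c1, c3, if_false]; norm_num
    push_cast at h2 ⊢
    rw [heps]
    have hN1 : (N : GaloisField p 2) + 1 = -r - 2 := by linear_combination hNr
    have hN2 : (N : GaloisField p 2) + 2 = -r - 1 := by linear_combination hNr
    rw [hNr, hN1, hN2] at h2
    linear_combination 4 * h2
  exact (CharP.intCast_eq_zero_iff (GaloisField p 2) p _).1 hcast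

theorem even_main (h4 : p % 4 = 3) (h7 : 7 ≤ p) {r : ℕ} (hr : Even r) (hr0 : 1 ≤ r) :
    ¬ ((p : ℤ) ∣ (G p (r * (p - 1))).re ∧ (p : ℤ) ∣ (G p (r * (p - 1))).im) := by
  rintro ⟨h1, h2⟩
  obtain ⟨I, hI⟩ := exists_field h4
  haveI : Fintype (GaloisField p 2) := Fintype.ofFinite _
  have hc : Fintype.card (GaloisField p 2) = p ^ 2 := by
    rw [← Nat.card_eq_fintype_card, GaloisField.card p 2 two_ne_zero]
  obtain ⟨φ, hφJ, hφ⟩ := exists_hom hI
  haveI : CharP (GaloisField p 2) p :=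
    charP_of_injective_algebraMap (algebraMap (ZMod p) (GaloisField p 2)).injective p
  have hpK : ((p : ℕ) : GaloisField p 2) = 0 := CharP.cast_eq_zero _ p
  have h0 : φ (G p (r * (p - 1))) = 0 := by
    have := hφ (G p (r * (p - 1))).re (G p (r * (p - 1))).im
    have e : (⟨(G p (r * (p - 1))).re, (G p (r * (p - 1))).im⟩ : GaussianInt) =
      G p (r * (p - 1)) := rfl
    rw [e] at this
    rw [this, (CharP.intCast_eq_zero_iff (GaloisField p 2) p _).2 h1,
      (CharP.intCast_eq_zero_iff (GaloisField p 2) p _).2 h2]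
    ring
  set n := r * (p - 1) with hn
  have hn0 : 0 < n := Nat.mul_pos hr0 (by omega)
  -- the sum over all pairs
  set F : ZMod p → ZMod p → GaloisField p 2 := fun a b =>
    (algebraMap (ZMod p) (GaloisField p 2) a + algebraMap (ZMod p) (GaloisField p 2) b * I) ^ n
    with hF
  have hG : φ (G p n) = ∑ a ∈ Icc 1 (p - 1), ∑ b ∈ Icc 1 (p - 1), F (a : ZMod p) (b : ZMod p) := by
    rw [G, map_sum]
    refine Finset.sum_congr rfl fun a _ => ?_
    rw [map_sum]
    refine Finset.sum_congr rfl fun b _ => ?_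
    rw [map_pow, hφ, hF]
    simp
  have hsplit : ∑ a ∈ Icc 1 (p - 1), ∑ b ∈ Icc 1 (p - 1), F (a : ZMod p) (b : ZMod p) =
      (∑ a : ZMod p, ∑ b : ZMod p, F a b) - (∑ b : ZMod p, F 0 b) - (∑ a : ZMod p, F a 0) +
        F 0 0 := by
    rw [← sum_range_cast (fun a => ∑ b : ZMod p, F a b), ← sum_range_cast (fun b => F 0 b),
      ← sum_range_cast (fun a => F a 0)]
    simp only [← sum_range_cast (fun b => F _ b)]
    rw [range_eq (p := p) (fun a => ∑ b ∈ range p, F ((a : ℕ) : ZMod p) (b : ZMod p)) (by omega),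
      range_eq (p := p) (fun b => F 0 ((b : ℕ) : ZMod p)) (by omega),
      range_eq (p := p) (fun a => F ((a : ℕ) : ZMod p) 0) (by omega)]
    have : ∀ a : ℕ, ∑ b ∈ range p, F ((a : ℕ) : ZMod p) (b : ZMod p) =
        F (a : ZMod p) 0 + ∑ b ∈ Icc 1 (p - 1), F (a : ZMod p) (b : ZMod p) := by
      intro a
      rw [range_eq (p := p) (fun b => F ((a : ℕ) : ZMod p) ((b : ℕ) : ZMod p)) (by omega)]
      simp
    have this0 : ∑ b ∈ range p, F 0 (b : ZMod p) =
        F 0 0 + ∑ b ∈ Icc 1 (p - 1), F 0 (b : ZMod p) := by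
      have := this 0
      simpa using this
    simp only [this, Finset.sum_add_distrib, Nat.cast_zero]
    rw [this0]
    ring
  have s1 : ∑ a : ZMod p, ∑ b : ZMod p, F a b = if (p + 1) ∣ r then -1 else 0 := by
    rw [← sum_pow_mul (K := GaloisField p 2) hc r hr0,
      sum_ab hc hI h4 (fun z => z ^ (r * (p - 1)))]
  have hIn : I ^ n = 1 := by
    obtain ⟨k, hk⟩ := hr
    obtain ⟨l, hl⟩ : ∃ l, p = 4 * l + 3 := ⟨p / 4, by omega⟩
    have : n = 2 * (2 * (k * (2 * l + 1))) := by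
      rw [hn, hk, hl, show 4 * l + 3 - 1 = 2 * (2 * l + 1) by omega]; ring
    rw [this, pow_mul, hI, pow_mul]; norm_num
  have hdn : 0 < n ∧ (p - 1) ∣ n := ⟨hn0, hn ▸ Dvd.intro_left _ rfl⟩
  have s2 : ∑ b : ZMod p, F 0 b = -1 := by
    simp only [hF, map_zero, zero_add, mul_pow, hIn, mul_one]
    rw [sum_zmod_pow, if_pos hdn]
  have s3 : ∑ a : ZMod p, F a 0 = -1 := by
    simp only [hF, map_zero, zero_mul, add_zero]
    rw [sum_zmod_pow, if_pos hdn]
  have s4 : F 0 0 = 0 := by simp [hF, hn0.ne']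
  rw [hG, hsplit, s1, s2, s3, s4] at h0
  have hne : ∀ k : ℕ, 0 < k → k < p → ((k : ℕ) : GaloisField p 2) ≠ 0 := by
    intro k hk hkp h
    rw [CharP.cast_eq_zero_iff (GaloisField p 2) p] at h
    have := Nat.le_of_dvd hk h
    omega
  by_cases c : (p + 1) ∣ r
  · rw [if_pos c] at h0
    apply hne 1 one_pos (by omega)
    push_cast; linear_combination h0
  · rw [if_neg c] at h0
    apply hne 2 two_pos (by omega)
    push_cast; linear_combination h0

/-- `h/2` is `B_{p-3}` modulo `p` -/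
theorem hh_bern (h7 : 7 ≤ p) :
    (p : ℤ) ∣ hh p * ((bernoulli (p - 3)).den : ℤ) - 2 * (bernoulli (p - 3)).num := by
  have hp0 : (p : ℤ) ≠ 0 := by exact_mod_cast hp.out.ne_zero
  have hprime : Prime (p : ℤ) := Nat.prime_iff_prime_int.1 hp.out
  obtain ⟨x, hx⟩ := S_kummer (p := p) h7 (m := p - 3) (s := 0) (by omega)
  obtain ⟨y, hy⟩ := S_bern (p := p) h7
  have hc : ((p - 3 : ℕ) : ℤ) = (p : ℤ) - 3 := by rw [Nat.cast_sub (by omega)]; rfl
  rw [hc] at hx
  have h3 : (p : ℤ) ∣ 3 * (hh p * ((bernoulli (p - 3)).den : ℤ) - 2 * (bernoulli (p - 3)).num) := by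
    refine ⟨-x * ((bernoulli (p - 3)).den : ℤ) + 6 * y + hh p * ((bernoulli (p - 3)).den : ℤ), ?_⟩
    apply mul_left_cancel₀ hp0
    linear_combination (-((bernoulli (p - 3)).den : ℤ)) * hx + 6 * hy
  rcases hprime.dvd_or_dvd h3 with h | h
  · exfalso
    have h' : p ∣ 3 := by exact_mod_cast h
    have := Nat.le_of_dvd (by norm_num) h'
    omega
  · exact h

end

end KS7_53
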