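import Mathlib

/-!
Power sums over the field with `p^2` elements, `p % 4 = 3`.
-/

open Finset

namespace KS7_53

set_option linter.unusedSectionVars false
set_option linter.style.haveILetI false

theorem sum_range_cast {p : ℕ} [hp : Fact p.Prime] {M : Type*} [AddCommMonoid M]
    (f : ZMod p → M) : ∑ a ∈ range p, f (a : ZMod p) = ∑ x : ZMod p, f x := by
  refine Finset.sum_nbij' (fun a => (a : ZMod p)) (fun x => x.val) ?_ ?_ ?_ ?_ ?_
  · intro a _; exact Finset.mem_univ _
  · intro x _; exact Finset.mem_range.2 (ZMod.val_lt x)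
  · intro a ha; exact ZMod.val_cast_of_lt (Finset.mem_range.1 ha)
  · intro x _; exact ZMod.natCast_zmod_val x
  · intro a _; rfl

theorem sum_pow_pos {K : Type*} [Field K] [Fintype K] (k : ℕ) (hk : 0 < k) :
    ∑ z : K, z ^ k = if (Fintype.card K - 1) ∣ k then (-1 : K) else 0 := by
  classical
  rw [← FiniteField.sum_pow_units K k]
  have h1 : ∑ z : K, z ^ k = ∑ z ∈ (univ : Finset K) \ {0}, z ^ k := by
    rw [← Finset.sum_sdiff (Finset.subset_univ ({0} : Finset K))]
    simp [hk.ne']
  rw [h1]
  let φ : Kˣ ↪ K := ⟨fun x ↦ x, Units.val_injective⟩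
  have h2 : (univ : Finset Kˣ).map φ = univ \ {0} := by
    ext x
    simpa only [mem_map, mem_univ, Function.Embedding.coeFn_mk, true_and, mem_sdiff,
      mem_singleton, φ] using! isUnit_iff_ne_zero
  rw [← h2, Finset.sum_map]
  rfl

theorem sum_zmod_pow {p : ℕ} [hp : Fact p.Prime] {K : Type*} [Field K] [Algebra (ZMod p) K]
    (k : ℕ) : ∑ a : ZMod p, (algebraMap (ZMod p) K a) ^ k =
      if 0 < k ∧ (p - 1) ∣ k then (-1 : K) else 0 := by
  rcases Nat.eq_zero_or_pos k with h | h
  · subst h
    simp only [pow_zero, Finset.sum_const, Finset.card_univ, ZMod.card, nsmul_eq_mul, mul_one,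
      lt_irrefl, false_and, if_false]
    have := (map_natCast (algebraMap (ZMod p) K) p)
    rw [← this, ZMod.natCast_self, map_zero]
  · have h1 := sum_pow_pos (K := ZMod p) k h
    rw [ZMod.card] at h1
    have h2 := congrArg (algebraMap (ZMod p) K) h1
    rw [map_sum] at h2
    simp only [map_pow] at h2
    rw [h2]
    by_cases hd : (p - 1) ∣ k
    · simp [hd, h]
    · simp [hd]

section K
variable {p : ℕ} [hp : Fact p.Prime] {K : Type*} [Field K] [Fintype K] [Algebra (ZMod p) K]
  (hK : Fintype.card K = p ^ 2) {I : K} (hI : I ^ 2 = -1) (h4 : p % 4 = 3)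

include hI h4 in
theorem inj_ab : Function.Injective
    (fun x : ZMod p × ZMod p => algebraMap (ZMod p) K x.1 + algebraMap (ZMod p) K x.2 * I) := by
  rintro ⟨a, b⟩ ⟨c, d⟩ h
  simp only at h
  have hinj := (algebraMap (ZMod p) K).injective
  have h1 : algebraMap (ZMod p) K (b - d) * I = algebraMap (ZMod p) K (c - a) := by
    rw [map_sub, map_sub]; linear_combination h
  by_cases hbd : b - d = 0
  · rw [hbd, map_zero, zero_mul] at h1
    have : c - a = 0 := hinj (by rw [← h1, map_zero])
    rw [Prod.mk.injEq]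
    exact ⟨(sub_eq_zero.1 this).symm, sub_eq_zero.1 hbd⟩
  · exfalso
    have h2 : algebraMap (ZMod p) K ((c - a) ^ 2) = algebraMap (ZMod p) K (-(b - d) ^ 2) := by
      rw [map_pow, ← h1, mul_pow, hI, map_neg, map_pow]; ring
    have h3 := hinj h2
    have h4' : IsSquare (-1 : ZMod p) := by
      refine ⟨(c - a) / (b - d), ?_⟩
      field_simp
      linear_combination -h3
    rw [FiniteField.isSquare_neg_one_iff, ZMod.card] at h4'
    exact h4' h4

include hK hI h4 in
theorem bij_ab : Function.Bijective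
    (fun x : ZMod p × ZMod p => algebraMap (ZMod p) K x.1 + algebraMap (ZMod p) K x.2 * I) := by
  rw [Fintype.bijective_iff_injective_and_card]
  refine ⟨inj_ab hI h4, ?_⟩
  rw [Fintype.card_prod, ZMod.card, hK, sq]

include hK hI h4 in
theorem sum_ab {M : Type*} [AddCommMonoid M] (f : K → M) :
    ∑ z : K, f z = ∑ a : ZMod p, ∑ b : ZMod p,
      f (algebraMap (ZMod p) K a + algebraMap (ZMod p) K b * I) := by
  rw [← Fintype.sum_prod_type']
  exact (Fintype.sum_bijective _ (bij_ab hK hI h4) _ _ (fun x => rfl)).symm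

theorem alg_pow (a : ZMod p) : (algebraMap (ZMod p) K a) ^ p = algebraMap (ZMod p) K a := by
  rw [← map_pow, ZMod.pow_card]

include hI h4 in
theorem I_pow_p : I ^ p = -I := by
  have h : p = 2 * (2 * (p / 4) + 1) + 1 := by omega
  rw [h, pow_succ, pow_mul, hI, pow_succ, pow_mul]
  simp

include hI h4 in
theorem frob_ab (a b : ZMod p) :
    (algebraMap (ZMod p) K a + algebraMap (ZMod p) K b * I) ^ p =
      algebraMap (ZMod p) K a - algebraMap (ZMod p) K b * I := by
  haveI : CharP K p := charP_of_injective_algebraMap (algebraMap (ZMod p) K).injective p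
  rw [add_pow_char, mul_pow, alg_pow, alg_pow, I_pow_p hI h4]
  ring

include hK in
theorem sum_pow_mul (k : ℕ) (hk : 0 < k) :
    ∑ z : K, z ^ (k * (p - 1)) = if (p + 1) ∣ k then (-1 : K) else 0 := by
  have h1 : 1 < p := hp.out.one_lt
  rw [sum_pow_pos _ (Nat.mul_pos hk (by omega)), hK]
  have h2 : p ^ 2 - 1 = (p + 1) * (p - 1) := by
    zify [h1.le, Nat.one_le_pow 2 p (by omega)]
    ring
  simp only [h2, Nat.mul_dvd_mul_iff_right (show 0 < p - 1 by omega)]

/-- The truncated sum of the binomial coefficients with index divisible by `p - 1`. -/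
def E (I : K) (p N : ℕ) : K :=
  ∑ j ∈ range (N + 1), if (p - 1) ∣ j then (N.choose j : K) * I ^ j else 0

include hK hI h4 in
theorem E_eval {r N : ℕ} (hr : Odd r) (h7 : 7 ≤ p) (hN : N + 3 = r * (p - 1)) :
    8 * E I p N = 8 - (if (p + 1) ∣ r + 1 then 3 else 0) - (if (p + 1) ∣ r + 3 then 1 else 0) := by
  have hr0 : 0 < r := hr.pos
  -- first evaluation
  have e1 : ∑ a : ZMod p, ∑ b : ZMod p, (algebraMap (ZMod p) K a) ^ 3 *
      (algebraMap (ZMod p) K a + algebraMap (ZMod p) K b * I) ^ N = E I p N - 1 := by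
    have s1 : ∀ a b : ZMod p, (algebraMap (ZMod p) K a) ^ 3 *
        (algebraMap (ZMod p) K a + algebraMap (ZMod p) K b * I) ^ N =
        ∑ j ∈ range (N + 1), (N.choose j : K) * I ^ j *
          ((algebraMap (ZMod p) K b) ^ j * (algebraMap (ZMod p) K a) ^ (N - j + 3)) := by
      intro a b
      rw [add_comm (algebraMap (ZMod p) K a), add_pow, Finset.mul_sum]
      refine Finset.sum_congr rfl fun j _ => ?_
      rw [mul_pow, pow_add]; ring
    simp only [s1]
    have s2 : ∀ a : ZMod p, ∑ b : ZMod p, ∑ j ∈ range (N + 1), (N.choose j : K) * I ^ j *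
          ((algebraMap (ZMod p) K b) ^ j * (algebraMap (ZMod p) K a) ^ (N - j + 3)) =
        ∑ j ∈ range (N + 1), ∑ b : ZMod p, (N.choose j : K) * I ^ j *
          ((algebraMap (ZMod p) K b) ^ j * (algebraMap (ZMod p) K a) ^ (N - j + 3)) :=
      fun a => Finset.sum_comm
    simp only [s2]
    rw [Finset.sum_comm]
    have s3 : ∀ j ∈ range (N + 1), ∑ a : ZMod p, ∑ b : ZMod p, (N.choose j : K) * I ^ j *
          ((algebraMap (ZMod p) K b) ^ j * (algebraMap (ZMod p) K a) ^ (N - j + 3)) =
        (if (p - 1) ∣ j then (N.choose j : K) * I ^ j else 0) - (if j = 0 then 1 else 0) := by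
      intro j hj
      have hjN : j ≤ N := by have := Finset.mem_range.1 hj; omega
      have t1 : ∑ a : ZMod p, ∑ b : ZMod p, (N.choose j : K) * I ^ j *
          ((algebraMap (ZMod p) K b) ^ j * (algebraMap (ZMod p) K a) ^ (N - j + 3)) =
          (N.choose j : K) * I ^ j * ((∑ b : ZMod p, (algebraMap (ZMod p) K b) ^ j) *
            ∑ a : ZMod p, (algebraMap (ZMod p) K a) ^ (N - j + 3)) := by
        rw [Finset.sum_mul_sum, Finset.sum_comm, Finset.mul_sum]
        refine Finset.sum_congr rfl fun b _ => ?_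
        rw [Finset.mul_sum]
      rw [t1, sum_zmod_pow, sum_zmod_pow]
      rcases Nat.eq_zero_or_pos j with h0 | h0
      · subst h0; simp
      · have hd : (p - 1) ∣ (N - j + 3) ↔ (p - 1) ∣ j := by
          have : N - j + 3 = r * (p - 1) - j := by omega
          rw [this]
          constructor
          · intro h
            have h'' := Nat.dvd_sub (Dvd.intro_left r rfl : (p - 1) ∣ r * (p - 1)) h
            have h' : r * (p - 1) - (r * (p - 1) - j) = j := by omega
            rwa [h'] at h''
          · intro h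
            exact Nat.dvd_sub (Dvd.intro_left r rfl : (p - 1) ∣ r * (p - 1)) h
        by_cases hjd : (p - 1) ∣ j
        · rw [if_pos ⟨h0, hjd⟩, if_pos ⟨by omega, hd.2 hjd⟩, if_pos hjd, if_neg h0.ne']
          ring
        · rw [if_neg (fun h => hjd h.2), if_neg hjd, if_neg h0.ne']
          ring
    rw [Finset.sum_congr rfl s3, Finset.sum_sub_distrib]
    congr 1
    rw [Finset.sum_ite_eq' (range (N + 1)) 0 (fun _ => (1 : K))]
    simp
  -- second evaluation
  have e2 : 8 * ∑ a : ZMod p, ∑ b : ZMod p, (algebraMap (ZMod p) K a) ^ 3 *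
      (algebraMap (ZMod p) K a + algebraMap (ZMod p) K b * I) ^ N =
      ∑ z : K, (z + z ^ p) ^ 3 * z ^ N := by
    rw [sum_ab hK hI h4, Finset.mul_sum]
    refine Finset.sum_congr rfl fun a _ => ?_
    rw [Finset.mul_sum]
    refine Finset.sum_congr rfl fun b _ => ?_
    rw [frob_ab hI h4]
    ring
  have e3 : ∑ z : K, (z + z ^ p) ^ 3 * z ^ N =
      (∑ z : K, z ^ (r * (p - 1))) + 3 * (∑ z : K, z ^ ((r + 1) * (p - 1))) +
        3 * (∑ z : K, z ^ ((r + 2) * (p - 1))) + ∑ z : K, z ^ ((r + 3) * (p - 1)) := by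
    rw [Finset.mul_sum, Finset.mul_sum, ← Finset.sum_add_distrib, ← Finset.sum_add_distrib,
      ← Finset.sum_add_distrib]
    refine Finset.sum_congr rfl fun z _ => ?_
    have a1 : (r + 1) * (p - 1) = N + 2 + p := by
      have : (r + 1) * (p - 1) = r * (p - 1) + (p - 1) := by ring
      omega
    have a2 : (r + 2) * (p - 1) = N + 1 + 2 * p := by
      have : (r + 2) * (p - 1) = r * (p - 1) + 2 * (p - 1) := by ring
      omega
    have a3 : (r + 3) * (p - 1) = N + 3 * p := by
      have : (r + 3) * (p - 1) = r * (p - 1) + 3 * (p - 1) := by ring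
      omega
    rw [a1, a2, a3, ← hN]
    ring
  rw [sum_pow_mul hK _ hr0, sum_pow_mul hK _ (by omega), sum_pow_mul hK _ (by omega),
    sum_pow_mul hK _ (by omega)] at e3
  have hpe : 2 ∣ p + 1 := by omega
  have n0 : ¬ (p + 1) ∣ r := fun h => by
    have := hpe.trans h; obtain ⟨k, hk⟩ := hr; omega
  have n2 : ¬ (p + 1) ∣ r + 2 := fun h => by
    have := hpe.trans h; obtain ⟨k, hk⟩ := hr; omega
  rw [if_neg n0, if_neg n2] at e3
  rw [e1, e3] at e2
  by_cases c1 : (p + 1) ∣ r + 1
  · by_cases c3 : (p + 1) ∣ r + 3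
    · simp only [c1, c3, if_true] at e2 ⊢
      linear_combination e2
    · simp only [c1, c3, if_true, if_false] at e2 ⊢
      linear_combination e2
  · by_cases c3 : (p + 1) ∣ r + 3
    · simp only [c1, c3, if_true, if_false] at e2 ⊢
      linear_combination e2
    · simp only [c1, c3, if_false] at e2 ⊢
      linear_combination e2

end K

end KS7_53
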