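import Pool.Agent.KS7_53.Gauss.Sums

/-!
The Gaussian power sum modulo `p^4`.
-/

open Finset

namespace KS7_53

set_option linter.unusedSectionVars false
set_option linter.style.haveILetI false

/-- `G_n(p) = ∑_{1 ≤ a, b ≤ p - 1} (a + b i)^n`. -/
def G (p n : ℕ) : GaussianInt :=
  ∑ a ∈ Icc 1 (p - 1), ∑ b ∈ Icc 1 (p - 1), (⟨(a : ℤ), (b : ℤ)⟩ : GaussianInt) ^ n

/-- the imaginary unit -/
def J : GaussianInt := ⟨0, 1⟩

theorem J_sq : J ^ 2 = -1 := by
  rw [sq]; ext <;> simp [J]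

theorem J_ne : J ≠ 0 := by
  intro h
  have := J_sq
  rw [h] at this
  norm_num at this

theorem mk_eq (a b : ℤ) : (⟨a, b⟩ : GaussianInt) = b * J + a := by
  ext <;> simp [J]

section
variable {p : ℕ} [hp : Fact p.Prime]

/-- the terms of the binomial expansion -/
def T (p n j : ℕ) : GaussianInt := (n.choose j : GaussianInt) * J ^ j * ((S p j * S p (n - j) : ℤ) : GaussianInt)

theorem G_eq (n : ℕ) : G p n = ∑ j ∈ range (n + 1), T p n j := by
  have h1 : ∀ a b : ℕ, (⟨(a : ℤ), (b : ℤ)⟩ : GaussianInt) ^ n =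
      ∑ j ∈ range (n + 1), (n.choose j : GaussianInt) * J ^ j *
        (((b : ℤ) : GaussianInt) ^ j * ((a : ℤ) : GaussianInt) ^ (n - j)) := by
    intro a b
    rw [mk_eq, add_pow]
    refine Finset.sum_congr rfl fun j _ => ?_
    rw [mul_pow]; ring
  rw [G]
  simp only [h1]
  have h2 : ∀ a : ℕ, ∑ b ∈ Icc 1 (p - 1), ∑ j ∈ range (n + 1), (n.choose j : GaussianInt) * J ^ j *
        (((b : ℤ) : GaussianInt) ^ j * ((a : ℤ) : GaussianInt) ^ (n - j)) =
      ∑ j ∈ range (n + 1), ∑ b ∈ Icc 1 (p - 1), (n.choose j : GaussianInt) * J ^ j *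
        (((b : ℤ) : GaussianInt) ^ j * ((a : ℤ) : GaussianInt) ^ (n - j)) := fun a => Finset.sum_comm
  simp only [h2]
  rw [Finset.sum_comm]
  refine Finset.sum_congr rfl fun j _ => ?_
  rw [T, S, S]
  push_cast
  rw [Finset.sum_mul_sum, Finset.sum_comm, Finset.mul_sum]
  refine Finset.sum_congr rfl fun b _ => ?_
  rw [Finset.mul_sum]

theorem star_G {n : ℕ} (hn : n % 4 = 2) : star (G p n) = - G p n := by
  have h1 : ∀ a b : ℤ, star ((⟨a, b⟩ : GaussianInt) ^ n) = -(⟨b, a⟩ : GaussianInt) ^ n := by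
    intro a b
    have e1 : (⟨b, a⟩ : GaussianInt) = J * star (⟨a, b⟩ : GaussianInt) := by
      ext <;> simp [J]
    have e2 : J ^ n = -1 := by
      have : n = 2 * (2 * (n / 4) + 1) := by omega
      rw [this, pow_mul, J_sq, pow_succ, pow_mul]; norm_num
    rw [e1, mul_pow, e2, star_pow]
    ring
  rw [G, star_sum]
  simp only [star_sum, h1, Finset.sum_neg_distrib]
  rw [Finset.sum_comm]

theorem G_re {n : ℕ} (hn : n % 4 = 2) : (G p n).re = 0 := by
  have h := congrArg Zsqrtd.re (star_G (p := p) hn)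
  simp only [Zsqrtd.re_star, Zsqrtd.re_neg] at h
  omega

theorem star_T (n j : ℕ) : star (T p n j) = (-1) ^ j * T p n j := by
  have h : star J = -1 * J := by ext <;> simp [J]
  have h2 : star ((S p j * S p (n - j) : ℤ) : GaussianInt) = ((S p j * S p (n - j) : ℤ) : GaussianInt) := by
    ext <;> simp
  have h3 : star ((n.choose j : ℕ) : GaussianInt) = ((n.choose j : ℕ) : GaussianInt) := by
    ext <;> simp
  rw [T, star_mul', star_mul', star_pow, h, h2, h3, mul_pow]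
  ring

theorem G_odd {n : ℕ} (hn : n % 4 = 2) :
    G p n = ∑ j ∈ range (n + 1), if Odd j then T p n j else 0 := by
  have h1 : (2 : GaussianInt) * G p n = G p n - star (G p n) := by rw [star_G hn]; ring
  have h2 : G p n - star (G p n) =
      2 * ∑ j ∈ range (n + 1), (if Odd j then T p n j else 0) := by
    rw [G_eq, star_sum, ← Finset.sum_sub_distrib, Finset.mul_sum]
    refine Finset.sum_congr rfl fun j _ => ?_
    rw [star_T]
    by_cases hj : Odd j
    · rw [if_pos hj, hj.neg_one_pow]; ring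
    · rw [if_neg hj, (Nat.not_odd_iff_even.1 hj).neg_one_pow]; ring
  exact mul_left_cancel₀ (by norm_num) (h1.trans h2)

theorem prod_one (h7 : 7 ≤ p) {r j : ℕ} (hj : (p - 1) ∣ (j - 1)) (hj1 : 1 ≤ j)
    (hjn : j < r * (p - 1)) :
    (p : ℤ) ^ 4 ∣ 24 * (S p j * S p (r * (p - 1) - j)) -
      p ^ 3 * hh p * (j * ((r * (p - 1) : ℕ) - j) * ((r * (p - 1) : ℕ) - j - 1)) := by
  have hodd : p % 2 = 1 := by
    rcases hp.out.eq_two_or_odd with h | h <;> omega
  obtain ⟨q, hq⟩ : ∃ q, p - 1 = 2 * q := ⟨(p - 1) / 2, by omega⟩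
  obtain ⟨c, hc⟩ := hj
  have hjo : Odd j := by
    rw [Nat.odd_iff]
    have : j = 2 * (q * c) + 1 := by rw [← mul_assoc, ← hq, ← hc]; omega
    omega
  have hcr : c < r := by
    by_contra hcon
    push Not at hcon
    have := Nat.mul_le_mul_left (p - 1) hcon
    rw [mul_comm (p - 1) r] at this
    omega
  obtain ⟨s, rfl⟩ : ∃ s, r = c + s + 1 := ⟨r - c - 1, by omega⟩
  set n := (c + s + 1) * (p - 1) with hn
  have hn' : n = (p - 1) * c + (p - 1) * (s + 1) := by rw [hn]; ring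
  have hno : Odd (n - j) := by
    rw [Nat.odd_iff]
    have h2 : n = 2 * ((c + s + 1) * q) := by rw [hn, hq]; ring
    have h3 := Nat.odd_iff.1 hjo
    omega
  have hs1 : 6 ≤ (p - 1) * (s + 1) := by
    calc 6 ≤ p - 1 := by omega
      _ = (p - 1) * 1 := (mul_one _).symm
      _ ≤ (p - 1) * (s + 1) := Nat.mul_le_mul_left _ (by omega)
  have hm : n - j - 1 + 2 = (p - 1) * (s + 1) := by omega
  obtain ⟨x, hx⟩ := two_S (p := p) h7 hjo
  obtain ⟨z, hz⟩ := two_S (p := p) h7 hno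
  obtain ⟨y, hy⟩ := S_neg_one (p := p) (j := j - 1) ⟨c, hc⟩
  obtain ⟨w, hw⟩ := S_kummer (p := p) h7 hm
  have hnd : ¬ (p - 1) ∣ (n - j - 1) := by
    intro h
    have h2 : (p - 1) ∣ (n - j - 1 + 2) := hm ▸ Dvd.intro _ rfl
    have h3 : (p - 1) ∣ 2 := (Nat.dvd_add_right h).1 h2
    have := Nat.le_of_dvd (by norm_num) h3
    omega
  obtain ⟨t, ht⟩ := S_dvd (p := p) hnd
  have hp0 : (p : ℤ) ≠ 0 := by exact_mod_cast hp.out.ne_zero
  rw [ht] at hw hz
  have hw' : 6 * t + ((n - j - 1 : ℕ) : ℤ) * hh p = p * w := by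
    apply mul_left_cancel₀ hp0
    linear_combination hw
  have c1 : ((n - j : ℕ) : ℤ) = (n : ℤ) - j := by rw [Nat.cast_sub hjn.le]
  have c2 : ((n - j - 1 : ℕ) : ℤ) = (n : ℤ) - j - 1 := by
    rw [Nat.cast_sub (by omega), c1]; simp
  rw [c1] at hz
  rw [c2] at hw'
  have e1 : 2 * S p j = -(j * p) + p ^ 2 * (j * y + p * x) := by
    linear_combination hx + j * p * hy
  have e2 : 2 * S p (n - j) = ((n : ℤ) - j) * p ^ 2 * t + p ^ 3 * z := by
    linear_combination hz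
  refine ⟨-(j * ((n : ℤ) - j) * w) + 6 * ((j * y + p * x) * (((n : ℤ) - j) * t + p * z)) -
    6 * j * z, ?_⟩
  linear_combination (6 * (2 * S p (n - j))) * e1 + 6 * (-(j * p) + p ^ 2 * (j * y + p * x)) * e2 -
    j * ((n : ℤ) - j) * p ^ 3 * hw'

theorem prod_other (h7 : 7 ≤ p) {r j : ℕ} (hjo : Odd j) (hjn : j < r * (p - 1))
    (h1 : ¬ (p - 1) ∣ (j - 1)) (h2 : ¬ (p - 1) ∣ (j + 1)) :
    (p : ℤ) ^ 4 ∣ 24 * (S p j * S p (r * (p - 1) - j)) := by
  have hodd : p % 2 = 1 := by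
    rcases hp.out.eq_two_or_odd with h | h <;> omega
  obtain ⟨q, hq⟩ : ∃ q, p - 1 = 2 * q := ⟨(p - 1) / 2, by omega⟩
  set n := r * (p - 1) with hn
  have hno : Odd (n - j) := by
    rw [Nat.odd_iff]
    have h2 : n = 2 * (r * q) := by rw [hn, hq]; ring
    have h3 := Nat.odd_iff.1 hjo
    omega
  have hnd : ¬ (p - 1) ∣ (n - j - 1) := by
    intro h
    apply h2
    have h4 : (p - 1) ∣ n := hn ▸ Dvd.intro_left _ rfl
    have h5 := Nat.dvd_sub h4 h
    have h6 : n - (n - j - 1) = j + 1 := by omega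
    rwa [h6] at h5
  obtain ⟨x, hx⟩ := two_S (p := p) h7 hjo
  obtain ⟨z, hz⟩ := two_S (p := p) h7 hno
  obtain ⟨t, ht⟩ := S_dvd (p := p) hnd
  obtain ⟨u, hu⟩ := S_dvd (p := p) h1
  rw [ht] at hz
  rw [hu] at hx
  refine ⟨6 * (j * u + p * x) * (((n - j : ℕ) : ℤ) * t + p * z), ?_⟩
  have e1 : 2 * S p j = p ^ 2 * (j * u + p * x) := by linear_combination hx
  have e2 : 2 * S p (n - j) = p ^ 2 * (((n - j : ℕ) : ℤ) * t + p * z) := by
    linear_combination hz
  linear_combination 6 * (2 * S p (n - j)) * e1 + 6 * (p ^ 2 * (j * u + p * x)) * e2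

end

end KS7_53
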