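import Pool.Agent.KS7_53.Gauss.Fq

/-!
Power sums `S(j) = 1^j + ... + (p-1)^j` modulo powers of `p`.
-/

open Finset

namespace KS7_53

set_option linter.unusedSectionVars false
set_option linter.style.haveILetI false

/-- `S(j) = 1^j + ... + (p-1)^j`. -/
def S (p j : ℕ) : ℤ := ∑ a ∈ Icc 1 (p - 1), (a : ℤ) ^ j

section
variable {p : ℕ} [hp : Fact p.Prime]

theorem range_eq {M : Type*} [AddCommMonoid M] (f : ℕ → M) (hp1 : 1 ≤ p) :
    ∑ a ∈ range p, f a = f 0 + ∑ a ∈ Icc 1 (p - 1), f a := by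
  obtain ⟨q, rfl⟩ : ∃ q, p = q + 1 := ⟨p - 1, by omega⟩
  rw [Finset.sum_range_succ']
  rw [add_comm]
  congr 1
  rw [show q + 1 - 1 = q by omega, Finset.range_eq_Ico, Finset.sum_Ico_add' f 0 q 1]
  refine Finset.sum_congr ?_ fun _ _ => rfl
  ext a; simp only [Finset.mem_Ico, Finset.mem_Icc]; omega

theorem S_mod (j : ℕ) : ((S p j : ℤ) : ZMod p) = if (p - 1) ∣ j then -1 else 0 := by
  have h1 := hp.out.one_lt
  rcases Nat.eq_zero_or_pos j with h | h
  · subst h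
    simp only [S, pow_zero, sum_const, Nat.card_Icc, nsmul_eq_mul, mul_one, dvd_zero, if_true]
    rw [show p - 1 + 1 - 1 = p - 1 by omega]
    push_cast [Nat.cast_sub h1.le]
    simp
  · have h2 := sum_range_cast (p := p) (fun x : ZMod p => x ^ j)
    rw [range_eq (p := p) (fun a => ((a : ℕ) : ZMod p) ^ j) h1.le] at h2
    have h3 := sum_pow_pos (K := ZMod p) j h
    rw [ZMod.card] at h3
    rw [h3] at h2
    simp only [Nat.cast_zero, zero_pow h.ne', zero_add] at h2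
    rw [S]; push_cast
    exact h2

theorem S_dvd {j : ℕ} (hj : ¬ (p - 1) ∣ j) : (p : ℤ) ∣ S p j := by
  rw [← ZMod.intCast_zmod_eq_zero_iff_dvd, S_mod, if_neg hj]

theorem S_neg_one {j : ℕ} (hj : (p - 1) ∣ j) : (p : ℤ) ∣ S p j + 1 := by
  rw [← ZMod.intCast_zmod_eq_zero_iff_dvd]
  push_cast
  rw [S_mod, if_pos hj]; ring

theorem S_odd (h7 : 7 ≤ p) {j : ℕ} (hj : Odd j) : (p : ℤ) ∣ S p j := by
  apply S_dvd
  intro h
  have hodd : p % 2 = 1 := by
    rcases hp.out.eq_two_or_odd with h | h <;> omega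
  have : 2 ∣ p - 1 := by omega
  have := this.trans h
  obtain ⟨k, hk⟩ := hj
  omega

theorem sum_refl (f : ℤ → ℤ) :
    ∑ a ∈ Icc 1 (p - 1), f ((p : ℤ) - (a : ℤ)) = ∑ a ∈ Icc 1 (p - 1), f (a : ℤ) := by
  have h1 := hp.out.one_lt
  refine Finset.sum_nbij' (fun a => p - a) (fun a => p - a) ?_ ?_ ?_ ?_ ?_
  · intro a ha; rw [Finset.mem_Icc] at ha ⊢; omega
  · intro a ha; rw [Finset.mem_Icc] at ha ⊢; omega
  · intro a ha; rw [Finset.mem_Icc] at ha; omega
  · intro a ha; rw [Finset.mem_Icc] at ha; omega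
  · intro a ha; rw [Finset.mem_Icc] at ha
    rw [Nat.cast_sub (by omega)]

theorem expand2 (x y : ℤ) (m : ℕ) : ∃ k : ℤ, (x + y) ^ (m + 2) =
    x ^ (m + 2) + (m + 2) * x ^ (m + 1) * y + ((m + 2).choose 2 : ℤ) * x ^ m * y ^ 2 +
      k * y ^ 3 := by
  induction m with
  | zero => exact ⟨0, by simp; ring⟩
  | succ m ih =>
    obtain ⟨k, hk⟩ := ih
    refine ⟨k * (x + y) + ((m + 2).choose 2 : ℤ) * x ^ m, ?_⟩
    have hc : ((m + 1 + 2).choose 2 : ℤ) = ((m + 2).choose 2 : ℤ) + (m + 2) := by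
      have := Nat.choose_succ_succ (m + 2) 1
      rw [Nat.choose_one_right] at this
      have h2 : (m + 1 + 2).choose 2 = (m + 2) + (m + 2).choose 2 := this
      rw [h2]; push_cast; ring
    rw [show m + 1 + 2 = (m + 2) + 1 by ring] at hc ⊢
    rw [pow_succ (x + y), hk, hc]
    push_cast
    ring

theorem two_S (h7 : 7 ≤ p) {j : ℕ} (hj : Odd j) :
    (p : ℤ) ^ 3 ∣ 2 * S p j - j * p * S p (j - 1) := by
  have h1 := hp.out.one_lt
  obtain ⟨i, rfl⟩ := hj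
  rcases Nat.eq_zero_or_pos i with hi | hi
  · subst hi
    have h2 : S p 1 = ∑ a ∈ Icc 1 (p - 1), ((p : ℤ) - (a : ℤ)) ^ 1 :=
      (sum_refl (p := p) (fun x => x ^ 1)).symm
    have h3 : 2 * S p 1 = (p : ℤ) * S p 0 := by
      have : 2 * S p 1 = S p 1 + S p 1 := by ring
      rw [this]
      nth_rewrite 2 [h2]
      rw [S, S, ← Finset.sum_add_distrib, Finset.mul_sum]
      refine Finset.sum_congr rfl fun a _ => ?_
      ring
    have : 2 * S p (2 * 0 + 1) - ((2 * 0 + 1 : ℕ) : ℤ) * p * S p (2 * 0 + 1 - 1) = 0 := by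
      simp only [mul_zero, zero_add, Nat.sub_self, Nat.cast_one, one_mul]
      rw [h3]; ring
    rw [this]; exact dvd_zero _
  · obtain ⟨m, hm⟩ : ∃ m, 2 * i + 1 = m + 2 := ⟨2 * i - 1, by omega⟩
    have hmo : Odd m := by rw [Nat.odd_iff]; omega
    rw [hm]
    choose k hk using fun a : ℕ => expand2 (-(a : ℤ)) (p : ℤ) m
    have h2 : S p (m + 2) = ∑ a ∈ Icc 1 (p - 1), ((p : ℤ) - (a : ℤ)) ^ (m + 2) :=
      (sum_refl (p := p) (fun x => x ^ (m + 2))).symm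
    have h3 : S p (m + 2) = - S p (m + 2) + (m + 2) * p * S p (m + 1)
        - ((m + 2).choose 2 : ℤ) * p ^ 2 * S p m + p ^ 3 * ∑ a ∈ Icc 1 (p - 1), k a := by
      nth_rewrite 1 [h2]
      rw [S, S, S, Finset.mul_sum, Finset.mul_sum, Finset.mul_sum, ← Finset.sum_neg_distrib,
        ← Finset.sum_add_distrib, ← Finset.sum_sub_distrib, ← Finset.sum_add_distrib]
      refine Finset.sum_congr rfl fun a _ => ?_
      rw [show (p : ℤ) - a = -(a : ℤ) + p by ring, hk a]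
      have o1 : (-(a : ℤ)) ^ (m + 2) = -((a : ℤ) ^ (m + 2)) := by
        rw [Odd.neg_pow]; exact hmo.add_even even_two
      have o2 : (-(a : ℤ)) ^ (m + 1) = (a : ℤ) ^ (m + 1) := by
        rw [Even.neg_pow]; exact hmo.add_one
      have o3 : (-(a : ℤ)) ^ m = -((a : ℤ) ^ m) := by rw [Odd.neg_pow hmo]
      rw [o1, o2, o3]
      ring
    obtain ⟨t, ht⟩ := S_odd h7 hmo
    rw [ht] at h3
    refine ⟨∑ a ∈ Icc 1 (p - 1), k a - ((m + 2).choose 2 : ℤ) * t, ?_⟩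
    rw [show m + 2 - 1 = m + 1 by omega]
    push_cast
    linear_combination h3

/-- An auxiliary sum. -/
def hh (p : ℕ) : ℤ := ∑ a ∈ Icc 1 (p - 1), ((2 * a / p : ℕ) : ℤ) * (a : ℤ) ^ (p - 4)

theorem sum_double (h7 : 7 ≤ p) (f : ℤ → ℤ) :
    ∑ a ∈ Icc 1 (p - 1), f (((2 * a) % p : ℕ) : ℤ) = ∑ a ∈ Icc 1 (p - 1), f (a : ℤ) := by
  have h1 := hp.out.one_lt
  have hodd : p % 2 = 1 := by
    rcases hp.out.eq_two_or_odd with h | h <;> omega
  have hcop : ∀ a c : ℕ, 1 ≤ a → a ≤ p - 1 → 1 ≤ c → c ≤ p - 1 → 1 ≤ (c * a) % p := by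
    intro a c ha ha' hc hc'
    rw [Nat.one_le_iff_ne_zero]
    intro h
    have h2 : p ∣ c * a := Nat.dvd_of_mod_eq_zero h
    rcases (hp.out.dvd_mul).1 h2 with h3 | h3
    · have := Nat.le_of_dvd (by omega) h3; omega
    · have := Nat.le_of_dvd (by omega) h3; omega
  have hq : 2 * ((p + 1) / 2) = p + 1 := by omega
  refine Finset.sum_nbij' (fun a => (2 * a) % p) (fun a => ((p + 1) / 2 * a) % p) ?_ ?_ ?_ ?_ ?_
  · intro a ha; rw [Finset.mem_Icc] at ha ⊢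
    exact ⟨hcop a 2 ha.1 ha.2 (by norm_num) (by omega), by
      have := Nat.mod_lt (2 * a) (show 0 < p by omega); omega⟩
  · intro a ha; rw [Finset.mem_Icc] at ha ⊢
    exact ⟨hcop a _ ha.1 ha.2 (by omega) (by omega), by
      have := Nat.mod_lt ((p + 1) / 2 * a) (show 0 < p by omega); omega⟩
  · intro a ha; rw [Finset.mem_Icc] at ha
    show ((p + 1) / 2 * ((2 * a) % p)) % p = a
    rw [Nat.mul_mod_mod, ← mul_assoc, mul_comm ((p + 1) / 2) 2, hq, add_mul, one_mul,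
      Nat.add_comm, Nat.add_mul_mod_self_left, Nat.mod_eq_of_lt (by omega)]
  · intro a ha; rw [Finset.mem_Icc] at ha
    show (2 * (((p + 1) / 2 * a) % p)) % p = a
    rw [Nat.mul_mod_mod, ← mul_assoc, hq, add_mul, one_mul,
      Nat.add_comm, Nat.add_mul_mod_self_left, Nat.mod_eq_of_lt (by omega)]
  · intro a _; rfl

theorem expand1 (x y : ℤ) (m : ℕ) : ∃ k : ℤ, (x + y) ^ (m + 1) =
    x ^ (m + 1) + (m + 1) * x ^ m * y + k * y ^ 2 := by
  induction m with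
  | zero => exact ⟨0, by simp⟩
  | succ m ih =>
    obtain ⟨k, hk⟩ := ih
    refine ⟨k * (x + y) + (m + 1) * x ^ m, ?_⟩
    rw [pow_succ (x + y), hk]
    push_cast
    ring

/-- The Kummer type congruence. -/
theorem S_kummer (h7 : 7 ≤ p) {m s : ℕ} (hm : m + 2 = (p - 1) * (s + 1)) :
    (p : ℤ) ^ 2 ∣ 6 * S p m + m * p * hh p := by
  have h1 := hp.out.one_lt
  have hodd : p % 2 = 1 := by
    rcases hp.out.eq_two_or_odd with h | h <;> omega
  have hm0 : p - 4 + (p - 1) * s + 1 = m := by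
    have : (p - 1) * (s + 1) = (p - 1) * s + (p - 1) := by ring
    omega
  obtain ⟨l, rfl⟩ : ∃ l, m = l + 1 := ⟨m - 1, by omega⟩
  choose k hk using fun a : ℕ => expand1 (2 * (a : ℤ)) (-(p * ((2 * a / p : ℕ) : ℤ))) l
  have hmod : ∀ a : ℕ, (((2 * a) % p : ℕ) : ℤ) = 2 * (a : ℤ) + -(p * ((2 * a / p : ℕ) : ℤ)) := by
    intro a
    have := Nat.mod_add_div (2 * a) p
    have h' : (((2 * a) % p : ℕ) : ℤ) + p * ((2 * a / p : ℕ) : ℤ) = 2 * a := by exact_mod_cast this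
    linear_combination h'
  set H : ℤ := ∑ a ∈ Icc 1 (p - 1), ((2 * a / p : ℕ) : ℤ) * (a : ℤ) ^ l with hH
  have e1 : S p (l + 1) = 2 ^ (l + 1) * S p (l + 1) - (l + 1) * p * 2 ^ l * H +
      p ^ 2 * ∑ a ∈ Icc 1 (p - 1), k a * ((2 * a / p : ℕ) : ℤ) ^ 2 := by
    have : S p (l + 1) = ∑ a ∈ Icc 1 (p - 1), ((((2 * a) % p : ℕ) : ℤ)) ^ (l + 1) :=
      (sum_double h7 (fun x => x ^ (l + 1))).symm
    nth_rewrite 1 [this]
    rw [S, hH, Finset.mul_sum, Finset.mul_sum, Finset.mul_sum,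
      ← Finset.sum_sub_distrib, ← Finset.sum_add_distrib]
    refine Finset.sum_congr rfl fun a _ => ?_
    rw [hmod a, hk a, mul_pow, mul_pow]
    ring
  -- `S(m)` is divisible by `p`
  have hnd : ¬ (p - 1) ∣ (l + 1) := by
    intro h
    have h2 : (p - 1) ∣ (l + 1 + 2) := hm ▸ Dvd.intro _ rfl
    have h3 : (p - 1) ∣ 2 := (Nat.dvd_add_right h).1 h2
    have := Nat.le_of_dvd (by norm_num) h3
    omega
  obtain ⟨t, ht⟩ := S_dvd (p := p) hnd
  -- `2^(m+2) = 1`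
  have h2 : (p : ℤ) ∣ 2 ^ (l + 1 + 2) - 1 := by
    rw [← ZMod.intCast_zmod_eq_zero_iff_dvd]
    push_cast
    rw [hm, pow_mul]
    have : (2 : ZMod p) ^ (p - 1) = 1 := by
      apply ZMod.pow_card_sub_one_eq_one
      intro h
      have h' : ((2 : ℕ) : ZMod p) = 0 := by exact_mod_cast h
      rw [ZMod.natCast_eq_zero_iff] at h'
      have := Nat.le_of_dvd (by norm_num) h'
      omega
    rw [this, one_pow, sub_self]
  obtain ⟨u, hu⟩ := h2
  -- `H = h`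
  have h3 : (p : ℤ) ∣ H - hh p := by
    rw [← ZMod.intCast_zmod_eq_zero_iff_dvd, hH, hh, ← Finset.sum_sub_distrib]
    push_cast
    apply Finset.sum_eq_zero
    intro a ha
    rw [Finset.mem_Icc] at ha
    have ha0 : (a : ZMod p) ≠ 0 := by
      intro h
      rw [ZMod.natCast_eq_zero_iff] at h
      have := Nat.le_of_dvd (by omega) h
      omega
    have hl : l = p - 4 + (p - 1) * s := by omega
    rw [hl, pow_add, pow_mul, ZMod.pow_card_sub_one_eq_one ha0, one_pow, mul_one, sub_self]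
  obtain ⟨w, hw⟩ := h3
  rw [ht] at e1 ⊢
  have hw' : H = hh p + p * w := by linear_combination hw
  rw [hw'] at e1
  have hu' : (2 : ℤ) ^ (l + 3) = 1 + p * u := by
    have : l + 3 = l + 1 + 2 := by ring
    rw [this]; linear_combination hu
  set Q := ∑ a ∈ Icc 1 (p - 1), k a * ((2 * a / p : ℕ) : ℤ) ^ 2
  have e2 : (2 : ℤ) ^ (l + 3) = 8 * 2 ^ l := by ring
  have e3 : (2 : ℤ) ^ (l + 1) = 2 * 2 ^ l := by ring
  rw [e2] at hu'
  rw [e3] at e1
  push_cast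
  refine ⟨2 * u * t - (l + 1) * w - u * (l + 1) * (hh p + p * w) + 8 * Q, ?_⟩
  linear_combination 8 * e1 + (2 * p * t - (l + 1) * p * (hh p + p * w)) * hu'

end

end KS7_53
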